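import Pool.Agent.helper10.FL.SpecV

/-!
# Project fl: (MP_70a088_an, rational maps), row fl:SEL2 : selection of the level and of the smallest return, with two more clauses.
The proof is the one of `FL.SEL` (helper38), with `q = b`.
-/

set_option autoImplicit false

open Complex Metric Set Filter Topology MeasureTheory
open STA

noncomputable section

namespace FL

theorem SEL2 (hRRB : RRB_stmt) (hINJ : INJ_stmt) (hPFX : PFX_stmt) (hFIN : FIN_stmt) : SEL2_stmt := by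
  intro Y κ e s c₁ b c hok hN hJ
  obtain ⟨hrr, -, -, hmono, hnpp⟩ := hRRB
  obtain ⟨hfin, hnz⟩ := hFIN Y κ e s c₁ b c hok hN hJ
  obtain ⟨hb, hc, hbc, -, -⟩ := hnpp Y κ e s c₁ b c hN
  have hq : RT Y (1 / 24) b := hb
  have hto : ∀ (i m : ℕ), RT Y (rr i) m → RT Y (1 / 48) m := fun i m h => hmono Y (rr i) (1 / 48) m (hrr i).1.le h
  have hfrom : ∀ (i m : ℕ), RT Y (1 / 24) m → RT Y (rr i) m := fun i m h => hmono Y (1 / 24) (rr i) m (hrr i).2.1 h
  have hup : ∀ (i m : ℕ), RT Y (rr i) m → RT Y (rr (i + 1)) m := fun i m h => hmono Y (rr i) (rr (i + 1)) m (hrr i).2.2.1 h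
  have hmin : ∀ i : ℕ, ∃ n, RT Y (rr i) n ∧ ∀ m, RT Y (rr i) m → ‖T Y n 0‖ ≤ ‖T Y m 0‖ := by
    intro i
    have h1 : {m : ℕ | RT Y (rr i) m}.Finite := hfin.subset (fun m hm => hto i m hm)
    obtain ⟨n, hn, hn2⟩ := Set.exists_min_image {m : ℕ | RT Y (rr i) m} (fun m => ‖T Y m 0‖) h1 ⟨b, hfrom i b hq⟩
    exact ⟨n, hn, fun m hm => hn2 m hm⟩
  choose n hn hmn using hmin
  obtain ⟨N, hNr, hNm⟩ : ∃ N, RT Y (1 / 48) N ∧ ∀ m, RT Y (1 / 48) m → ‖T Y N 0‖ ≤ ‖T Y m 0‖ := by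
    obtain ⟨N, hN1, hN2⟩ := Set.exists_min_image {m : ℕ | RT Y (1 / 48) m} (fun m => ‖T Y m 0‖) hfin ⟨b, hto 0 b (hfrom 0 b hq)⟩
    exact ⟨N, hN1, fun m hm => hN2 m hm⟩
  have hpos : ∀ m, RT Y (1 / 48) m → 0 < ‖T Y m 0‖ := fun m hm => norm_pos_iff.2 (hnz m hm)
  have hs0 : ‖T Y b 0‖ ≤ s := hN.sb
  have hsn : 0 ≤ s := (norm_nonneg _).trans hs0
  have h0b : ‖T Y (n 0) 0‖ ≤ s := (hmn 0 b (hfrom 0 b hb)).trans hs0
  -- the first level
  have hex : ∃ i : ℕ, ‖T Y (n i) 0‖ ≤ 4 * ‖T Y (n (i + 1)) 0‖ := by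
    by_contra hno
    have hno2 : ∀ i : ℕ, 4 * ‖T Y (n (i + 1)) 0‖ < ‖T Y (n i) 0‖ := fun i => not_le.1 (fun h => hno ⟨i, h⟩)
    have h1 : ∀ i : ℕ, 4 ^ i * ‖T Y (n i) 0‖ ≤ ‖T Y (n 0) 0‖ := by
      intro i
      induction i with
      | zero => simp
      | succ i ih =>
        refine le_trans ?_ ih
        calc (4 : ℝ) ^ (i + 1) * ‖T Y (n (i + 1)) 0‖ = 4 ^ i * (4 * ‖T Y (n (i + 1)) 0‖) := by ring
          _ ≤ _ := mul_le_mul_of_nonneg_left (hno2 i).le (by positivity)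
    have hNp := hpos N hNr
    obtain ⟨i, hi⟩ := pow_unbounded_of_one_lt (‖T Y (n 0) 0‖ / ‖T Y N 0‖) (by norm_num : (1 : ℝ) < 4)
    rw [div_lt_iff₀ hNp] at hi
    have h2 := h1 i
    have h3 : ‖T Y N 0‖ ≤ ‖T Y (n i) 0‖ := hNm _ (hto i _ (hn i))
    have h4 : (4 : ℝ) ^ i * ‖T Y N 0‖ ≤ 4 ^ i * ‖T Y (n i) 0‖ := mul_le_mul_of_nonneg_left h3 (by positivity)
    linarith
  classical
  set i := Nat.find hex with hi
  have hi1 : ‖T Y (n i) 0‖ ≤ 4 * ‖T Y (n (i + 1)) 0‖ := Nat.find_spec hex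
  have hi2 : ∀ k < i, 4 * ‖T Y (n (k + 1)) 0‖ < ‖T Y (n k) 0‖ := fun k hk => not_le.1 (Nat.find_min hex hk)
  have hdec : ∀ k ≤ i, 4 ^ k * ‖T Y (n k) 0‖ ≤ ‖T Y (n 0) 0‖ := by
    intro k
    induction k with
    | zero => intro _; simp
    | succ k ih =>
      intro hk
      refine le_trans ?_ (ih (Nat.le_of_succ_le hk))
      calc (4 : ℝ) ^ (k + 1) * ‖T Y (n (k + 1)) 0‖ = 4 ^ k * (4 * ‖T Y (n (k + 1)) 0‖) := by ring
        _ ≤ _ := mul_le_mul_of_nonneg_left (hi2 k hk).le (by positivity)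
  have hprev : 0 < i → ∃ n' < n i, RT Y (rr i) n' ∧ 2 ^ i * ‖T Y n' 0‖ ≤ 2 * s := by
    intro h0
    obtain ⟨k, hk⟩ : ∃ k, i = k + 1 := ⟨i - 1, by omega⟩
    have hki : k < i := by omega
    have hkp : 0 < ‖T Y (n k) 0‖ := hpos _ (hto k _ (hn k))
    have hlt := hi2 k hki
    rw [hk]
    refine ⟨n k, ?_, hup k _ (hn k), ?_⟩
    · by_contra hge
      have hle : n (k + 1) ≤ n k := not_lt.1 hge
      obtain ⟨hinj, -, -⟩ := hINJ Y κ e s c₁ b c hok hN (rr k) (n k) (hrr k).1.le (hrr k).2.1 (hn k)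
      have hsm : ‖T Y (n (k + 1)) 0‖ ≤ 1 / 10 ^ 6 := by
        have h1 : ‖T Y (n (k + 1)) 0‖ ≤ ‖T Y (n 0) 0‖ := by
          have h2 := hdec (k + 1) (by omega)
          have h3 : ‖T Y (n (k + 1)) 0‖ ≤ 4 ^ (k + 1) * ‖T Y (n (k + 1)) 0‖ :=
            le_mul_of_one_le_left (norm_nonneg _) (one_le_pow₀ (by norm_num))
          linarith
        have h4 := hN.s1
        have h5 := hN.k1
        have h6 : κ / 10 ^ 16 ≤ 1 / 10 ^ 20 := by
          rw [div_le_div_iff₀ (by positivity) (by positivity)]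
          linarith
        have h7 : (1 : ℝ) / 10 ^ 20 ≤ 1 / 10 ^ 6 := by norm_num
        linarith
      have hP := hPFX Y κ e s c₁ b c hok hN (rr k) (n k) (n (k + 1)) (hrr k).1.le (hrr k).2.1 (hn (k + 1)).m1 hle (hn k).gd hinj 0 (by norm_num) hsm
      have h8 := hmn k _ hP
      linarith
    · have h1 := hdec k hki.le
      have h2 : (2 : ℝ) ^ (k + 1) * ‖T Y (n k) 0‖ ≤ 2 * (4 ^ k * ‖T Y (n k) 0‖) := by
        calc (2 : ℝ) ^ (k + 1) * ‖T Y (n k) 0‖ = 2 * (2 ^ k * ‖T Y (n k) 0‖) := by ring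
          _ ≤ 2 * (4 ^ k * ‖T Y (n k) 0‖) := by
              apply mul_le_mul_of_nonneg_left _ (by norm_num)
              apply mul_le_mul_of_nonneg_right _ hkp.le
              exact pow_le_pow_left₀ (by norm_num) (by norm_num) k
      linarith
  refine ⟨i, n i, ⟨hn i, hnz _ (hto i _ (hn i)), hmn i, ?_, ?_⟩, (hdec i le_rfl).trans (hmn 0 b (hfrom 0 b hq)), ?_⟩
  · intro m hm
    refine hi1.trans ?_
    exact mul_le_mul_of_nonneg_left (hmn (i + 1) m hm) (by norm_num)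
  · rcases Nat.eq_zero_or_pos i with h0 | h0
    · rw [h0]
      by_cases hlt : n 0 < max b c
      · exact Or.inl hlt
      · right
        refine ⟨min b c, ?_, ?_, ?_⟩
        · have h1 : min b c < max b c := min_lt_max.2 hbc
          exact h1.trans_le (not_lt.1 hlt)
        · rcases min_choice b c with h | h
          · rw [h]
            exact hfrom 0 b hb
          · rw [h]
            exact hfrom 0 c hc
        · rw [pow_zero, one_mul]
          have h1 : ‖T Y (min b c) 0‖ ≤ s := by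
            rcases min_choice b c with h | h
            · rw [h]
              exact hN.sb
            · rw [h]
              exact hN.sc
          linarith
    · exact Or.inr (hprev h0)
  · rcases Nat.eq_zero_or_pos i with h0 | h0
    · by_cases hlt : n i ≤ b
      · exact Or.inl hlt
      · right
        refine ⟨b, not_le.1 hlt, ?_, ?_⟩
        · exact hfrom i b hq
        · rw [h0, pow_zero, one_mul]
          linarith
    · exact Or.inr (hprev h0)

end FL
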